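import Pool.Agent.H110R3.Urn.Stmts

/-!
Task L2 of the project H110-URN: second order lower bound for one edge.
-/

set_option autoImplicit false

namespace Pool.Agent.H337R3.UrnL2

open Pool.Agent.H110R3.Urn

/-- convexity of `x ^ α` -/
theorem conv_ineq {α x y : ℝ} (hα : 2 ≤ α) (hx : 0 ≤ x) (hy : 0 ≤ y) :
    x ^ α + α * x ^ (α - 1) * (y - x) ≤ y ^ α := by
  rcases hx.eq_or_lt with h | h
  · rw [← h, Real.zero_rpow (by linarith), Real.zero_rpow (by linarith)]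
    have := Real.rpow_nonneg hy α
    linarith
  · have hs : -1 ≤ y / x - 1 := by
      have : 0 ≤ y / x := div_nonneg hy hx
      linarith
    have h1 := one_add_mul_self_le_rpow_one_add hs (by linarith : (1 : ℝ) ≤ α)
    have h2 : (1 + (y / x - 1)) ^ α = y ^ α / x ^ α := by
      rw [add_sub_cancel, Real.div_rpow hy hx]
    rw [h2, le_div_iff₀ (Real.rpow_pos_of_pos h α)] at h1
    have h3 : x ^ α = x ^ (α - 1) * x := by
      rw [← Real.rpow_add_one h.ne', sub_add_cancel]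
    have h4 : (1 + α * (y / x - 1)) * x ^ α = x ^ α + α * x ^ (α - 1) * (y - x) := by
      rw [h3]
      field_simp
    rw [h4] at h1
    exact h1

theorem lip {α x y : ℝ} (hα : 2 ≤ α) (hx : x ∈ Set.Icc (0 : ℝ) 1) (hy : y ∈ Set.Icc (0 : ℝ) 1) :
    |y ^ α - x ^ α| ≤ α * |y - x| := by
  have key : ∀ u v : ℝ, u ∈ Set.Icc (0 : ℝ) 1 → v ∈ Set.Icc (0 : ℝ) 1 →
      u ^ α - v ^ α ≤ α * |v - u| := by
    intro u v hu hv
    have h1 := conv_ineq hα hu.1 hv.1
    have h2 : u ^ (α - 1) ≤ 1 := Real.rpow_le_one hu.1 hu.2 (by linarith)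
    have h3 : 0 ≤ u ^ (α - 1) := Real.rpow_nonneg hu.1 _
    have h4 : |u ^ (α - 1) * (v - u)| ≤ 1 * |v - u| := by
      rw [abs_mul, abs_of_nonneg h3]
      exact mul_le_mul_of_nonneg_right h2 (abs_nonneg _)
    have h5 := neg_abs_le (u ^ (α - 1) * (v - u))
    nlinarith
  rw [abs_le]
  constructor
  · have := key x y hx hy
    linarith
  · have := key y x hy hx
    rw [abs_sub_comm] at this
    linarith

theorem low {α κ a b : ℝ} (hα : 2 ≤ α) (hκ : 0 < κ) (ha : 0 ≤ a) (hb : 0 ≤ b)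
    (h : κ ≤ a + b) : (κ / 2) ^ α ≤ a ^ α + b ^ α := by
  have h0 : 0 ≤ κ / 2 := by linarith
  rcases le_total a b with hab | hab
  · have h1 : (κ / 2) ^ α ≤ b ^ α := Real.rpow_le_rpow h0 (by linarith) (by linarith)
    have h2 := Real.rpow_nonneg ha α
    linarith
  · have h1 : (κ / 2) ^ α ≤ a ^ α := Real.rpow_le_rpow h0 (by linarith) (by linarith)
    have h2 := Real.rpow_nonneg hb α
    linarith

/-- **Task L2.** -/
theorem t : TaskL2 := by
  intro α κ hα hκ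
  have hs0 : 0 < (κ / 2) ^ α := Real.rpow_pos_of_pos (by linarith) α
  set s0 : ℝ := (κ / 2) ^ α with hs0'
  have hα0 : 0 < α := by linarith
  refine ⟨2 * α / s0 ^ 2, by positivity, ?_⟩
  intro a b a' b' ha hb ha' hb' hab hab'
  have hS := low hα hκ ha.1 hb.1 hab
  have hS' := low hα hκ ha'.1 hb'.1 hab'
  rw [← hs0'] at hS hS'
  set S : ℝ := a ^ α + b ^ α with hSd
  set S' : ℝ := a' ^ α + b' ^ α with hSd'
  have pS : 0 < S := hs0.trans_le hS
  have pS' : 0 < S' := hs0.trans_le hS'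
  have c1 := conv_ineq hα ha.1 ha'.1
  have c2 := conv_ineq hα hb.1 hb'.1
  have l1 := lip hα ha ha'
  have l2 := lip hα hb hb'
  -- logarithm
  have g1 : 1 - S / S' ≤ Real.log S' - Real.log S := by
    have h := Real.one_sub_inv_le_log_of_pos (div_pos pS' pS)
    rw [Real.log_div pS'.ne' pS.ne', inv_div] at h
    exact h
  have g2 : 1 - S / S' = (S' - S) / S - (S' - S) ^ 2 / (S * S') := by
    field_simp
    ring
  have g3 : (S' - S) ^ 2 / (S * S') ≤ (S' - S) ^ 2 / s0 ^ 2 := by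
    apply div_le_div_of_nonneg_left (sq_nonneg _) (by positivity)
    rw [sq]
    exact mul_le_mul hS hS' hs0.le pS.le
  have g4 : (S' - S) ^ 2 ≤ 2 * α ^ 2 * ((a' - a) ^ 2 + (b' - b) ^ 2) := by
    have e : S' - S = (a' ^ α - a ^ α) + (b' ^ α - b ^ α) := by rw [hSd, hSd']; ring
    have h1 : (a' ^ α - a ^ α) ^ 2 ≤ α ^ 2 * (a' - a) ^ 2 := by
      rw [← sq_abs (a' ^ α - a ^ α), ← sq_abs (a' - a), ← mul_pow]
      exact pow_le_pow_left₀ (abs_nonneg _) l1 2
    have h2 : (b' ^ α - b ^ α) ^ 2 ≤ α ^ 2 * (b' - b) ^ 2 := by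
      rw [← sq_abs (b' ^ α - b ^ α), ← sq_abs (b' - b), ← mul_pow]
      exact pow_le_pow_left₀ (abs_nonneg _) l2 2
    rw [e]
    nlinarith [sq_nonneg ((a' ^ α - a ^ α) - (b' ^ α - b ^ α))]
  have g5 : (S' - S) ^ 2 / s0 ^ 2 ≤ 2 * α ^ 2 * ((a' - a) ^ 2 + (b' - b) ^ 2) / s0 ^ 2 :=
    div_le_div_of_nonneg_right g4 (by positivity)
  have g6 : α * (a ^ (α - 1) / S * (a' - a) + b ^ (α - 1) / S * (b' - b)) ≤ (S' - S) / S := by
    rw [le_div_iff₀ pS]
    have e : α * (a ^ (α - 1) / S * (a' - a) + b ^ (α - 1) / S * (b' - b)) * S =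
        α * a ^ (α - 1) * (a' - a) + α * b ^ (α - 1) * (b' - b) := by
      field_simp
    rw [e, hSd, hSd']
    linarith
  have g7 : α * (a ^ (α - 1) / S * (a' - a) + b ^ (α - 1) / S * (b' - b)) -
      2 * α ^ 2 * ((a' - a) ^ 2 + (b' - b) ^ 2) / s0 ^ 2 ≤ Real.log S' - Real.log S := by
    linarith
  unfold hh
  rw [← hSd, ← hSd']
  have g8 : 0 ≤ (1 / α) * ((Real.log S' - Real.log S) -
      (α * (a ^ (α - 1) / S * (a' - a) + b ^ (α - 1) / S * (b' - b)) -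
      2 * α ^ 2 * ((a' - a) ^ 2 + (b' - b) ^ 2) / s0 ^ 2)) :=
    mul_nonneg (by positivity) (by linarith)
  have g9 : (1 / α) * ((Real.log S' - Real.log S) -
      (α * (a ^ (α - 1) / S * (a' - a) + b ^ (α - 1) / S * (b' - b)) -
      2 * α ^ 2 * ((a' - a) ^ 2 + (b' - b) ^ 2) / s0 ^ 2)) =
      1 / α * Real.log S' - (1 / α * Real.log S + a ^ (α - 1) / S * (a' - a) +
        b ^ (α - 1) / S * (b' - b) - 2 * α / s0 ^ 2 * ((a' - a) ^ 2 + (b' - b) ^ 2)) := by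
    field_simp
    ring
  rw [g9] at g8
  linarith

end Pool.Agent.H337R3.UrnL2
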